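import Pool.Agent.Helper74.RN.St

set_option autoImplicit false

/-!
# Project RN (MP_26f0da_lc), module CFB: derived words of the grammar
-/

namespace Pool.Agent.Helper81.RN

open Pool.Agent.Helper74 Pool.Agent.Helper74.RN

variable {G : Type}

/-- words derived from a list of symbols -/
def Su (R : G → G → Prop) : List (Symbol (Ce G) Nt) → List (Ce G) → Prop
  | [], w => w = []
  | Symbol.terminal a :: s, w => ∃ w₁, w = a :: w₁ ∧ Su R s w₁
  | Symbol.nonterminal A :: s, w => ∃ u v, w = u ++ v ∧ Va R A u ∧ Su R s v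

theorem mem_gM (R : G → G → Prop) (h : {r | Rl R r}.Finite) (r : ContextFreeRule (Ce G) Nt) :
    r ∈ (gM R h).rules ↔ Rl R r := by
  show r ∈ h.toFinset ↔ _
  rw [Set.Finite.mem_toFinset]
  exact Iff.rfl

theorem ed_base : Ed (G := G) 0 [.s] :=
  ⟨[], [], rfl, ns_nil, ns_nil, by simp⟩

theorem ed_cons {d : ℤ} {w : List (Ce G)} (x : Ce G) (hx : x ≠ .s) (h : Ed d w) :
    Ed (d + 1) (x :: w) := by
  obtain ⟨p, q, rfl, hp, hq, hl⟩ := h
  refine ⟨x :: p, q, rfl, (ns_cons x p).2 ⟨hx, hp⟩, hq, ?_⟩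
  rw [List.length_cons]
  push_cast
  omega

theorem ed_snoc {d : ℤ} {w : List (Ce G)} (y : Ce G) (hy : y ≠ .s) (h : Ed d w) :
    Ed (d - 1) (w ++ [y]) := by
  obtain ⟨p, q, rfl, hp, hq, hl⟩ := h
  refine ⟨p, q ++ [y], by simp, hp, (ns_append q [y]).2 ⟨hq, (ns_cons y []).2 ⟨hy, ns_nil⟩⟩, ?_⟩
  rw [List.length_append, List.length_singleton]
  push_cast
  omega

theorem rule_ok (R : G → G → Prop) (r : ContextFreeRule (Ce G) Nt) (hr : Rl R r)
    (u : List (Ce G)) (hu : Su R r.output u) : Va R r.input u := by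
  cases hr with
  | e0 =>
    obtain ⟨w₁, rfl, h1⟩ := hu
    have h2 : w₁ = [] := h1
    subst h2
    exact ed_base
  | e1 x y hx hy =>
    obtain ⟨w₁, rfl, p, v, rfl, hp, w₂, rfl, h1⟩ := hu
    have h2 : w₂ = [] := h1
    subst h2
    have h3 : Ed 0 p := hp
    have h4 := ed_cons x hx (ed_snoc y hy h3)
    exact h4
  | e2 x hx =>
    obtain ⟨w₁, rfl, p, v, rfl, hp, h1⟩ := hu
    have h2 : v = [] := h1
    subst h2
    rw [List.append_nil]
    have h3 : Ed 0 p := hp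
    have h4 := ed_cons x hx h3
    exact h4
  | e3 y hy =>
    obtain ⟨p, v, rfl, hp, w₂, rfl, h1⟩ := hu
    have h2 : w₂ = [] := h1
    subst h2
    have h3 : Ed 0 p := hp
    have h4 := ed_snoc y hy h3
    exact h4
  | m0 =>
    obtain ⟨p, v, rfl, hp, h1⟩ := hu
    have h2 : v = [] := h1
    subst h2
    rw [List.append_nil]
    exact MM.e p hp
  | m1 A d f hA hf =>
    obtain ⟨w₀, v₀, rfl, h0, v₁, rfl, w₁, v₂, rfl, h1, v₃, rfl, w₂, v₄, rfl, h2, h3⟩ := hu
    have h4 : v₄ = [] := h3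
    subst h4
    rw [List.append_nil]
    exact MM.one A _ w₀ w₁ f w₂ hA h0 h1 hf h2
  | m2 x y f f' hR hf hf' =>
    obtain ⟨w₀, v₀, rfl, h0, v₁, rfl, w₁, v₂, rfl, h1, v₃, rfl, m, v₄, rfl, hm, v₅, rfl,
      w₃, v₆, rfl, h3, v₇, rfl, m', v₈, rfl, hm', h4⟩ := hu
    have h5 : v₈ = [] := h4
    subst h5
    rw [List.append_nil]
    exact MM.two x y w₀ w₁ f m w₃ f' m' hR h0 h1 hf hm h3 hf' hm'

theorem pr_su (R : G → G → Prop) (h : {r | Rl R r}.Finite) (k : ℕ)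
    (s : List (Symbol (Ce G) (gM R h).NT)) (w : List (Ce G)) (hw : DR.Pr (gM R h) k s w) :
    Su R s w := by
  induction hw with
  | nil => exact rfl
  | term a s w n _ ih => exact ⟨w, rfl, ih⟩
  | nont r s u v n m hr _ _ ih1 ih2 =>
    exact ⟨u, v, rfl, rule_ok R r ((mem_gM R h r).1 hr) u ih1, ih2⟩

theorem hCFB : StCFB := by
  intro G R h n w hw
  obtain ⟨u, v, rfl, hu, hv⟩ := pr_su R h n _ w hw
  have h1 : v = [] := hv
  rw [h1, List.append_nil]
  exact hu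

end Pool.Agent.Helper81.RN
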